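import Pool.Agent.H606R2.CF.Alg
import Pool.Agent.H606R2.CF.Fin

/-!
# Computing a largest crossing family is NP-hard

Reduction from the clique problem. A point `(a, b)` is viewed as the line `y = a X - b`; two
segments cross properly iff the apex (common point) of each pair of lines lies strictly between the
two lines of the other pair. Bundles of very steep pairs of lines with apex on the `x`-axis force
every large crossing family to contain the segments of an independent set of the remaining pairs of
lines. The remaining pairs of lines realise the adjacencies of a machine with two stacks; wires
with an exchange gadget and an edge gadget reduce independent sets of arbitrary graphs to it.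
-/

namespace Pool.Agent.Results.MP_0d06a5_lc.LargestCrossingFamilyHard

open Pool.Agent.NPC Pool.Agent.H606R2.CF

/-- Deciding whether `cf(S) ≥ k`, for a configuration `S` given as a list of distinct points with
integer coordinates, is `NP`-hard; and if some polynomial-time algorithm outputs a largest crossing
family for every configuration then `P = NP`. -/
theorem result :
    NPHardP (fun I : List (ℤ × ℤ) × ℕ => I.1.Nodup ∧ I.2 ≤ cf I.1.toFinset) ∧
    ∀ V : List Bool → List Bool, PolyTime V → ComputesLargest V →
      ∀ L, InNP L → InP L :=
  ⟨hardCF.toHardI.toNPHardP, fun V hV hS => collapse_of_alg hardCF V hV hS⟩

end Pool.Agent.Results.MP_0d06a5_lc.LargestCrossingFamilyHard
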